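import Pool.Agent.W425.IM.Stm
import Pool.Agent.W366.SI.I1
import Pool.Agent.W578.SI.Scale

/-! Project IM (problem MP_4e5fcd_ag): the part `S_IL2`, an adaptation of
`Pool.Agent.W366.SI.taskI1'`. -/

set_option autoImplicit false
set_option linter.unusedSectionVars false

namespace Pool.Agent.W29.IM

open MvPolynomial Pool.Agent.W574.SM Pool.Agent.W574.HS Pool.Agent.W366.SI

section

variable {σ ι : Type} [Fintype ι] [DecidableEq ι]

theorem il2core [DecidableEq σ] (f : ι → MvPolynomial σ ℂ) (b : Polynomial ℂ)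
    (a : MvPolynomial σ ℂ) (S : Finset (ι → ℤ)) (P : (ι → ℤ) → ((ι →₀ ℕ) →₀ weyl σ))
    (hS : ∀ c ∈ S, ∑ j, c j = 1)
    (hP : ∀ s : ι → ℕ, C (b.eval ((∑ j, s j : ℕ) : ℂ)) * a * ∏ j, f j ^ s j =
        ∑ c ∈ S, applyAt (P c) s
          (C ((∏ j, (if c j < 0 then (s j).choose (-c j).toNat else 1) : ℕ) : ℂ) *
            ∏ j, f j ^ ((s j : ℤ) + c j).toNat)) :
    ∃ Q ∈ Pool.Agent.H628R4.TP.weylS (ι ⊕ σ), ∀ s : ℕ,
      C (((Polynomial.X + 1) * b).eval (s : ℂ)) * rename Sum.inr a * univ f ^ s =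
        Q (univ f ^ (s + 1)) := by
  classical
  set cf : (ι → ℤ) → ℂ := fun c => ∏ j, (((-c j).toNat.factorial : ℕ) : ℂ) with hcf
  have hcf0 : ∀ c, cf c ≠ 0 := by
    intro c
    rw [hcf]
    refine Finset.prod_ne_zero_iff.2 fun j _ => ?_
    exact_mod_cast Nat.factorial_ne_zero _
  have hfall : ∀ (c : ι → ℤ) (α : ι →₀ ℕ), (fall c α : ℂ) = cf c *
      ((∏ j, (if c j < 0 then (α j).choose (-c j).toNat else 1) : ℕ) : ℂ) := by
    intro c α
    have : fall c α = (∏ j, (-c j).toNat.factorial) *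
        ∏ j, (if c j < 0 then (α j).choose (-c j).toNat else 1) := by
      rw [fall, ← Finset.prod_mul_distrib]
      refine Finset.prod_congr rfl fun j _ => ?_
      split_ifs with h
      · rw [Nat.descFactorial_eq_factorial_mul_choose]
      · have h0 : (-c j).toNat = 0 := by omega
        rw [h0]; simp
    rw [this, hcf]
    push_cast
    rfl
  have hlift : Lift (fun (H : (ι →₀ ℕ) → MvPolynomial σ ℂ) α => ∑ c ∈ S, ∑ β ∈ (P c).support,
      evN α (monomial β 1) • (P c β : Module.End ℂ (MvPolynomial σ ℂ))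
        ((cf c)⁻¹ • (fall c α : ℂ) • H (sh α c))) :=
    lift_sum S _ fun c _ => lift_sum _ _ fun β _ =>
      lift_poly _ _ (lift_weyl _ (P c β).2 _ (lift_smul (lift_sh c lift_id) _))
  obtain ⟨Q, mQ, hQ⟩ := hlift
  refine ⟨Q, mQ, fun s => ?_⟩
  apply hat_inj
  rw [hQ]
  funext α
  rw [mul_assoc, hat_C_mul, hat_r, hat_univ_pow]
  have hsum : ∀ c ∈ S, fall c α ≠ 0 → ((∑ j, sh α c j = s + 1) ↔ (∑ j, α j = s)) := by
    intro c hc h0
    have hpos : ∀ j, 0 ≤ (α j : ℤ) + c j := by
      intro j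
      by_contra hj
      refine h0 (Finset.prod_eq_zero (Finset.mem_univ j) ?_)
      rw [Nat.descFactorial_eq_zero_iff_lt]
      omega
    have h1 : ((∑ j, sh α c j : ℕ) : ℤ) = (∑ j, α j : ℕ) + 1 := by
      rw [← hS c hc]
      push_cast
      rw [← Finset.sum_add_distrib]
      refine Finset.sum_congr rfl fun j _ => ?_
      rw [sh_apply, Int.toNat_of_nonneg (hpos j)]
    constructor
    · intro h
      rw [h] at h1
      have : ((s : ℕ) : ℤ) = ((∑ j, α j : ℕ) : ℤ) := by
        rw [Nat.cast_add, Nat.cast_one] at h1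
        exact add_right_cancel h1
      exact_mod_cast this.symm
    · intro h
      rw [h] at h1
      exact_mod_cast h1
  by_cases hα : ∑ j, α j = s
  · rw [if_pos hα]
    have hk := hP (fun j => α j)
    simp only [hα] at hk
    have hterm : ∀ c ∈ S, (∑ β ∈ (P c).support,
        evN α (monomial β 1) • (P c β : Module.End ℂ (MvPolynomial σ ℂ))
          ((cf c)⁻¹ • (fall c α : ℂ) • hat (univ f ^ (s + 1)) (sh α c))) =
        ((s + 1).factorial : ℂ) • applyAt (P c) (fun j => α j)
          (C ((∏ j, (if c j < 0 then (α j).choose (-c j).toNat else 1) : ℕ) : ℂ) *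
            ∏ j, f j ^ ((α j : ℤ) + c j).toNat) := by
      intro c hc
      rw [applyAt, Finsupp.sum, Finset.smul_sum]
      refine Finset.sum_congr rfl fun β _ => ?_
      have h1 : evN α (monomial β 1) = ∏ j, (α j : ℂ) ^ β j := by
        rw [evN, eval_monomial, one_mul, Finsupp.prod_fintype]
        intro i
        rw [pow_zero]
      have hin : (cf c)⁻¹ • (fall c α : ℂ) • hat (univ f ^ (s + 1)) (sh α c) =
          ((s + 1).factorial : ℂ) •
            (C ((∏ j, (if c j < 0 then (α j).choose (-c j).toNat else 1) : ℕ) : ℂ) *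
              ∏ j, f j ^ ((α j : ℤ) + c j).toNat) := by
        rw [hat_univ_pow]
        by_cases h0 : fall c α = 0
        · have h2 := hfall c α
          rw [h0, Nat.cast_zero] at h2
          have h3 := (mul_eq_zero.1 h2.symm).resolve_left (hcf0 c)
          rw [h0, h3]
          simp
        · rw [if_pos ((hsum c hc h0).2 hα), hfall, C_mul', smul_smul, smul_smul, smul_smul]
          have h4 : (∏ j, f j ^ (sh α c) j) = ∏ j, f j ^ ((α j : ℤ) + c j).toNat := rfl
          rw [h4]
          congr 1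
          rw [mul_comm ((s + 1).factorial : ℂ), mul_assoc, mul_assoc, inv_mul_cancel_left₀ (hcf0 c)]
      rw [hin, map_smul, h1, smul_comm]
    have hterm2 := Finset.sum_congr (rfl : S = S) hterm
    rw [← Finset.smul_sum, ← hk, mul_assoc, C_mul'] at hterm2
    refine Eq.trans ?_ hterm2.symm
    rw [mul_smul_comm, smul_smul, smul_smul]
    congr 1
    rw [Polynomial.eval_mul, Nat.factorial_succ]
    simp only [Polynomial.eval_add, Polynomial.eval_X, Polynomial.eval_one]
    push_cast
    ring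
  · rw [if_neg hα, mul_zero, smul_zero]
    refine Eq.symm ?_
    refine Finset.sum_eq_zero fun c hc => Finset.sum_eq_zero fun β _ => ?_
    by_cases h0 : fall c α = 0
    · rw [h0]; simp
    · rw [hat_univ_pow, if_neg fun h => hα ((hsum c hc h0).1 h)]
      simp

end

theorem taskIL2 : Pool.Agent.W425.IM.S_IL2 := by
  intro n k f b h
  obtain ⟨a, S, P, ha, hS, hP⟩ := h
  obtain ⟨Q, mQ, hQ⟩ := il2core f b a S P hS hP
  have hmem := Pool.Agent.W578.SI.rename_mem (finSumFinEquiv (m := k) (n := n)) Q mQ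
  refine ⟨a, Finsupp.single 0 ⟨_, hmem⟩, ha, fun s => ?_⟩
  rw [Finsupp.sum_single_index (by simp), pow_zero, one_smul]
  have hu : renameEquiv ℂ (finSumFinEquiv (m := k) (n := n)) (univ f) =
      ∑ i, X (Fin.castAdd n i) * rename (Fin.natAdd k) (f i) := by
    rw [renameEquiv_apply, univ, map_sum]
    refine Finset.sum_congr rfl fun i _ => ?_
    rw [map_mul, rename_X, rename_rename]
    rfl
  have hr : renameEquiv ℂ (finSumFinEquiv (m := k) (n := n)) (rename Sum.inr a) =
      rename (Fin.natAdd k) a := by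
    rw [renameEquiv_apply, rename_rename]
    rfl
  have h1 := congrArg (renameEquiv ℂ (finSumFinEquiv (m := k) (n := n))) (hQ s)
  rw [map_mul, map_mul, map_pow, hu, hr] at h1
  have hC : renameEquiv ℂ (finSumFinEquiv (m := k) (n := n))
      (C (((Polynomial.X + 1) * b).eval (s : ℂ))) =
      C (((Polynomial.X + 1) * b).eval (s : ℂ)) := (renameEquiv ℂ _).commutes _
  rw [hC] at h1
  rw [h1]
  rw [← hu, ← map_pow]
  exact (Pool.Agent.W578.SI.cj_apply _ _ _).symm

end Pool.Agent.W29.IM
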